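import Pool.Agent.MP_a88b1d_nt.H42.Spec

/-! Row FIN: the final step of the disproof of the kernel conjecture. -/

open Polynomial Quaternion

noncomputable section

namespace Pool.Agent.MP_a88b1d_nt.H45

open Pool.Agent.MP_a88b1d_nt.H42

/-- Roots of units in an algebraically closed field. -/
theorem unit_root {K : Type} [Field K] [IsAlgClosed K] (u : Kˣ) {k : ℕ} (hk : 0 < k) :
    ∃ v : Kˣ, v ^ k = u := by
  obtain ⟨z, hz⟩ := IsAlgClosed.exists_pow_nat_eq (u : K) hk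
  have hz0 : z ≠ 0 := by
    rintro rfl
    rw [zero_pow hk.ne'] at hz
    exact u.ne_zero hz.symm
  exact ⟨Units.mk0 z hz0, Units.ext (by simpa using hz)⟩

/-- Characters of a torsion-free commutative group have roots. -/
theorem char_root {K : Type} [Field K] [IsAlgClosed K] {H : Type} [CommGroup H]
    [IsMulTorsionFree H] (χ : H →* Kˣ) {k : ℕ} (hk : 0 < k) : ∃ s : H →* Kˣ, s ^ k = χ := by
  have hdiv : ∀ {n : ℤ}, n ≠ 0 →
      Function.Surjective (fun a => n • a : Additive Kˣ → Additive Kˣ) := by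
    intro n hn u
    obtain ⟨v, hv⟩ := unit_root (Additive.toMul u) (Int.natAbs_pos.2 hn)
    rcases Int.natAbs_eq n with h | h
    · refine ⟨Additive.ofMul v, ?_⟩
      show n • Additive.ofMul v = u
      rw [h, ← ofMul_zpow, zpow_natCast, hv]; rfl
    · refine ⟨Additive.ofMul v⁻¹, ?_⟩
      show n • Additive.ofMul v⁻¹ = u
      rw [h, ← ofMul_zpow, inv_zpow', neg_neg, zpow_natCast, hv]; rfl
  let : DivisibleBy (Additive Kˣ) ℤ := divisibleByOfSMulRightSurj _ _ hdiv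
  have hinj : Function.Injective (MonoidHom.toAdditive (powMonoidHom k : H →* H)) := by
    intro x y hxy
    have : (Additive.toMul x) ^ k = (Additive.toMul y) ^ k := congrArg Additive.toMul hxy
    exact Additive.toMul.injective (pow_left_injective hk.ne' this)
  obtain ⟨h, hh⟩ := (Module.Baer.of_divisible (Additive Kˣ)).extension_property_addMonoidHom
    (MonoidHom.toAdditive (powMonoidHom k : H →* H)) hinj (MonoidHom.toAdditive χ)
  refine ⟨MonoidHom.toAdditive.symm h, MonoidHom.ext fun x => ?_⟩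
  have := congrArg Additive.toMul (DFunLike.congr_fun hh (Additive.ofMul x))
  rw [MonoidHom.pow_apply, ← map_pow]
  exact this

theorem cls_surj {G : Type} [Group G] : Function.Surjective (cls : G → Gbar G) := by
  intro x
  obtain ⟨y, rfl⟩ := QuotientGroup.mk'_surjective _ x
  obtain ⟨g, rfl⟩ := QuotientGroup.mk'_surjective _ y
  exact ⟨g, rfl⟩

/-- A homomorphism to a torsion-free commutative group factors through `Gbar`. -/
theorem gbar_lift {G H : Type} [Group G] [CommGroup H] [IsMulTorsionFree H] (f : G →* H) :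
    ∃ F : Gbar G →* H, ∀ g, F (cls g) = f g := by
  refine ⟨QuotientGroup.lift _ (Abelianization.lift f) ?_, fun g => rfl⟩
  intro x hx
  have h1 : IsOfFinOrder (Abelianization.lift f x) :=
    MonoidHom.isOfFinOrder _ ((CommGroup.mem_torsion x).1 hx)
  exact h1.eq_one'

/-- A product with prescribed multiplicities. -/
theorem exists_comb {H : Type} [Group H] : ∀ (N : ℕ) (h : Fin N → H) (c : Fin N → ℕ),
    ∃ x : H, ∀ (M : Type) [AddCommGroup M] (f : H → M), (∀ a b, f (a * b) = f a + f b) →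
      f x = ∑ j, c j • f (h j) := by
  intro N
  induction N with
  | zero =>
    intro h c
    refine ⟨1, fun M _ f hf => ?_⟩
    have := hf 1 1
    rw [mul_one] at this
    simpa using this
  | succ N ih =>
    intro h c
    obtain ⟨x, hx⟩ := ih (fun j => h j.succ) (fun j => c j.succ)
    refine ⟨h 0 ^ c 0 * x, fun M _ f hf => ?_⟩
    have h1 : f 1 = 0 := by
      have := hf 1 1
      rw [mul_one] at this
      simpa using this
    have hp : ∀ (y : H) (k : ℕ), f (y ^ k) = k • f y := by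
      intro y k
      induction k with
      | zero => simpa using h1
      | succ k ihk => rw [pow_succ, hf, ihk, succ_nsmul]
    rw [hf, hp, hx M f hf, Fin.sum_univ_succ]

theorem nn_ne : pp * qq ≠ 0 := by
  rw [nn_eq]; exact ofN_ne_zero (by norm_num)

theorem nn_not_dvd : ¬ pp * qq ∣ qq := by
  intro h
  have h0 : qq ≠ 0 := by rw [qq_eq]; exact ofN_ne_zero (by norm_num)
  have h1 := natDegree_le_of_dvd h h0
  have h2 : 8 ≤ (pp * qq).natDegree := by
    rw [nn_eq]; exact (le_natDegree_ofN (by norm_num)).1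
  have h3 : qq.natDegree ≤ 6 := by
    rw [qq_eq]; exact natDegree_ofN_le (by norm_num)
  omega

section Abstract
variable {X Y : Type} [CommGroup X] [CommGroup Y] {L0 : Subgroup X} {L1 : Subgroup Y}
  {O : Subgroup (X ⧸ L0)} {ψ : (X ⧸ L0) ⧸ O →* Y ⧸ L1} {α : X → Y}

theorem abs_mem (ha : ∀ χ, ψ (QuotientGroup.mk (QuotientGroup.mk χ)) = QuotientGroup.mk (α χ))
    (χ : X) (h : (QuotientGroup.mk χ : X ⧸ L0) ∈ O) : α χ ∈ L1 := by
  have h1 : (QuotientGroup.mk (QuotientGroup.mk χ) : (X ⧸ L0) ⧸ O) = 1 :=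
    (QuotientGroup.eq_one_iff _).2 h
  have h2 := ha χ
  rw [h1, map_one] at h2
  exact (QuotientGroup.eq_one_iff _).1 h2.symm

theorem abs_cube {S : Set (X ⧸ L0)}
    (hS : ∀ y ∈ S, ∃ σ : X, y = QuotientGroup.mk (σ ^ 3) ∧ (QuotientGroup.mk σ : X ⧸ L0) ∈ S)
    (y : X ⧸ L0) (hy : y ∈ Subgroup.closure S) :
    ∃ σ : X, y = QuotientGroup.mk (σ ^ 3) ∧
      (QuotientGroup.mk σ : X ⧸ L0) ∈ Subgroup.closure S := by
  induction hy using Subgroup.closure_induction with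
  | mem y hy =>
    obtain ⟨σ, h1, h2⟩ := hS y hy
    exact ⟨σ, h1, Subgroup.subset_closure h2⟩
  | one => exact ⟨1, by simp, one_mem _⟩
  | mul y y' _ _ h h' =>
    obtain ⟨σ, rfl, h1⟩ := h
    obtain ⟨σ', rfl, h2⟩ := h'
    exact ⟨σ * σ', by rw [mul_pow]; rfl, mul_mem h1 h2⟩
  | inv y _ h =>
    obtain ⟨σ, rfl, h1⟩ := h
    exact ⟨σ⁻¹, by rw [inv_pow]; rfl, inv_mem h1⟩

theorem abs_pow (ha : ∀ χ, ψ (QuotientGroup.mk (QuotientGroup.mk χ)) = QuotientGroup.mk (α χ))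
    (hα : ∀ x y, α (x * y) = α x * α y)
    (hO : ∀ y ∈ O, ∃ σ : X, y = QuotientGroup.mk (σ ^ 3) ∧ (QuotientGroup.mk σ : X ⧸ L0) ∈ O)
    (hs : Function.Surjective ψ) (s : Y) (hχ : s ^ 3 ∈ L1) :
    ∃ lam ∈ L0, ∃ κ ∈ L1, (s ^ 3) ^ Nat.card ψ.ker = α lam * κ ^ 3 := by
  obtain ⟨β, hβ⟩ : ∃ β : X →* Y, ∀ x, α x = β x := ⟨MonoidHom.mk' α hα, fun _ => rfl⟩
  obtain ⟨y, hy⟩ := hs (QuotientGroup.mk s)
  obtain ⟨y1, rfl⟩ := QuotientGroup.mk_surjective y
  obtain ⟨t, rfl⟩ := QuotientGroup.mk_surjective y1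
  have hy' := hy
  rw [ha] at hy'
  have hl : (α t)⁻¹ * s ∈ L1 := QuotientGroup.eq.1 hy'
  set Z : (X ⧸ L0) ⧸ O := QuotientGroup.mk (QuotientGroup.mk t) with hY
  have hk : Z ^ 3 ∈ ψ.ker := by
    rw [MonoidHom.mem_ker, map_pow, hy, ← QuotientGroup.mk_pow]
    exact (QuotientGroup.eq_one_iff _).2 hχ
  have hk2 : (Z ^ 3) ^ Nat.card ψ.ker = 1 := by
    have := pow_card_eq_one' (G := ψ.ker) (x := ⟨Z ^ 3, hk⟩)
    exact congrArg Subtype.val this
  rw [hY, ← QuotientGroup.mk_pow, ← QuotientGroup.mk_pow, ← QuotientGroup.mk_pow,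
    ← QuotientGroup.mk_pow] at hk2
  obtain ⟨σ, h1, h2⟩ := hO _ ((QuotientGroup.eq_one_iff _).1 hk2)
  have h3 := QuotientGroup.eq.1 h1.symm
  refine ⟨_, h3, α σ * ((α t)⁻¹ * s) ^ Nat.card ψ.ker,
    mul_mem (abs_mem ha σ h2) (pow_mem hl _), ?_⟩
  simp only [hβ, map_mul, map_inv, map_pow]
  generalize Nat.card ψ.ker = m
  generalize β σ = q
  generalize β t = r
  apply Additive.ofMul.injective
  simp only [ofMul_mul, ofMul_pow, ofMul_inv]
  module

end Abstract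

variable {C : Type} [NontriviallyNormedField C] [Algebra (ZMod 2) C]

section Main
variable {T : C} {G : Type} [Group G] {ρ : G →* MK T} {w z w' z' : C}
  {ψ : Jnew T (pp * qq) w z →* Jac (toM ρ) w' z'} {a : Gbar G →* Gbar (Gam0 (pp * qq))}

/-- Old characters are mapped into the lattice. -/
theorem old_mem
    (ha : ∀ χ : Gbar (Gam0 (pp * qq)) →* Cˣ,
      ψ (QuotientGroup.mk (QuotientGroup.mk χ)) = QuotientGroup.mk (χ.comp a))
    (χ : Gbar (Gam0 (pp * qq)) →* Cˣ)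
    (h : (QuotientGroup.mk χ : Jac (rho0 T (pp * qq)) w z) ∈ Jold T (pp * qq) w z) :
    χ.comp a ∈ Lat (toM ρ) w' z' :=
  abs_mem (α := fun χ => χ.comp a) ha χ h

theorem new_of [IsAlgClosed C] (hT : 1 < ‖T‖) (hd : DG)
    (ha : ∀ χ : Gbar (Gam0 (pp * qq)) →* Cˣ,
      ψ (QuotientGroup.mk (QuotientGroup.mk χ)) = QuotientGroup.mk (χ.comp a))
    (hL : ∀ χ ∈ Lat (toM ρ) w' z', ∃ g, NormIs ρ χ g)
    (x : G) (μ : Gam0 (pp * qq)) (hμ : cls μ = a (cls x)) : New μ := by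
  intro d hd1 φ g' hg'
  have hdv : qq * d ∣ pp * qq := by
    rcases hd1 with rfl | rfl
    · rw [mul_one]; exact dvd_mul_left _ _
    · rw [mul_comm]
  obtain ⟨D, hD⟩ := hd (pp * qq) qq d nn_ne hdv
  have hT0 : T ≠ 0 := by
    rintro rfl
    rw [norm_zero] at hT
    linarith
  set e : ℤ := Multiplicative.toAdd (φ g') with he
  obtain ⟨t, ht⟩ := unit_root (Units.mk0 T hT0) (k := 2 * e.natAbs + 1) (by omega)
  obtain ⟨Φ, hΦ⟩ := gbar_lift φ
  obtain ⟨Db, hDb⟩ := gbar_lift ((cls : Gam0 qq →* Gbar (Gam0 qq)).comp D)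
  let χ' : Gbar (Gam0 qq) →* Cˣ := (zpowersHom Cˣ t).comp Φ
  let χ : Gbar (Gam0 (pp * qq)) →* Cˣ := χ'.comp Db
  have hold : (QuotientGroup.mk χ : Jac (rho0 T (pp * qq)) w z) ∈ Jold T (pp * qq) w z := by
    refine Subgroup.subset_closure ⟨qq, d, χ, χ', hdv, nn_not_dvd, rfl, fun g g1 h => ?_⟩
    rw [(hD g g1).1 h]
    show χ' (Db (cls g)) = _
    rw [hDb]; rfl
  obtain ⟨g, hg⟩ := hL _ (old_mem ha χ hold)
  have h1 := hg x
  set j := Psi (dd T) ρ 1 (ρ x) 1 (ρ g)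
  have h2 : (χ.comp a) (cls x) = t ^ e := by
    show χ' (Db (a (cls x))) = _
    rw [← hμ, hDb]
    show zpowersHom Cˣ t (Φ (cls (D μ))) = _
    rw [hΦ, ← (hD μ g').1 hg']
    rfl
  rw [h2] at h1
  have h3 : ‖(t : C)‖ ^ (2 * e.natAbs + 1) = ‖T‖ := by
    rw [← norm_pow, ← Units.val_pow_eq_pow_val, ht]; rfl
  have htp : 0 < ‖(t : C)‖ := norm_pos_iff.2 t.ne_zero
  have ht1 : ‖(t : C)‖ ≠ 1 := by
    intro h
    rw [h, one_pow] at h3
    linarith
  rw [Units.val_zpow_eq_zpow_val, norm_zpow, ← h3, ← zpow_natCast, ← zpow_natCast, ← zpow_mul,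
    ← zpow_mul] at h1
  have h4 := zpow_right_injective₀ htp ht1 h1
  have h5 : e = 0 := by
    by_contra hne
    have hj : j ≠ 0 := by
      rintro h0
      rw [h0] at h4
      simp at h4
      exact hne h4
    have h6 := congrArg Int.natAbs h4
    rw [Int.natAbs_mul, Int.natAbs_mul, Int.natAbs_natCast, Int.natAbs_natCast] at h6
    have h7 : 1 ≤ j.natAbs := Int.natAbs_pos.2 hj
    have h8 := Nat.mul_le_mul_left (2 * e.natAbs + 1) h7
    omega
  exact Multiplicative.toAdd.injective h5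

theorem old_cube [IsAlgClosed C] (hd : DG)
    (y : Jac (rho0 T (pp * qq)) w z) (hy : y ∈ Jold T (pp * qq) w z) :
    ∃ σ : Gbar (Gam0 (pp * qq)) →* Cˣ, y = QuotientGroup.mk (σ ^ 3) ∧
      (QuotientGroup.mk σ : Jac (rho0 T (pp * qq)) w z) ∈ Jold T (pp * qq) w z := by
  refine abs_cube ?_ y hy
  rintro y ⟨m, d, χ, χ', h1, h2, rfl, h3⟩
  obtain ⟨D, hD⟩ := hd (pp * qq) m d nn_ne h1
  obtain ⟨Db, hDb⟩ := gbar_lift ((cls : Gam0 m →* Gbar (Gam0 m)).comp D)
  obtain ⟨s, hs⟩ := char_root χ' (k := 3) (by norm_num)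
  refine ⟨s.comp Db, ?_, m, d, s.comp Db, s, h1, h2, rfl, fun g g1 h => ?_⟩
  · congr 1
    refine MonoidHom.ext fun u => ?_
    obtain ⟨g, rfl⟩ := cls_surj u
    rw [h3 g (D g) ((hD g (D g)).2 rfl), ← hs]
    show s (cls (D g)) ^ 3 = s (Db (cls g)) ^ 3
    rw [hDb]
    rfl
  · rw [(hD g g1).1 h, MonoidHom.comp_apply, hDb]
    rfl

/-- The power `χ ^ m` of a period is a pulled back period times a cube. -/
theorem pow_eq [IsAlgClosed C] (hd : DG)
    (ha : ∀ χ : Gbar (Gam0 (pp * qq)) →* Cˣ,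
      ψ (QuotientGroup.mk (QuotientGroup.mk χ)) = QuotientGroup.mk (χ.comp a))
    (hs : Function.Surjective ψ) (χ : Gbar G →* Cˣ) (hχ : χ ∈ Lat (toM ρ) w' z') :
    ∃ lam ∈ Lat (rho0 T (pp * qq)) w z, ∃ κ ∈ Lat (toM ρ) w' z',
      ∀ u, χ u ^ Nat.card ψ.ker = lam (a u) * κ u ^ 3 := by
  obtain ⟨s, rfl⟩ := char_root χ (k := 3) (by norm_num)
  obtain ⟨lam, h1, κ, h2, h3⟩ := abs_pow (α := fun χ => χ.comp a) ha (fun _ _ => rfl)
    (old_cube hd) hs s hχ
  refine ⟨lam, h1, κ, h2, fun u => ?_⟩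
  have h4 := DFunLike.congr_fun h3 u
  rw [MonoidHom.pow_apply] at h4
  exact h4

end Main

/-- Row FIN. -/
theorem fin [IsAlgClosed C] (T : C) (hT : 1 < ‖T‖) (hd : DG) (hp : PA) (ht : TREE T)
    (hm : PM T) (he : PER T) (hn : GN T) : FIN T := by
  intro G _ ρ hρ hG w z w' z' h0 h1 ψ hψ
  obtain ⟨⟨a, ha⟩, hs, -⟩ := hψ
  by_contra h3
  have P0 := (he _ (r0 T (pp * qq)) (hm.good0 _)).2 w z h0
  have P1 := (he G ρ hρ).2 w' z' h1
  have A0 := hp _ (dd T) (st T) _ (r0 T (pp * qq)) ht.tree (hm.good0 _).2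
  have A1 := hp _ (dd T) (st T) _ ρ ht.tree hρ.2
  obtain ⟨F, hF, hF0⟩ := hn
  have hT0 : 0 < ‖T‖ := by linarith
  have key : ∀ (x : G) (μ : Gam0 (pp * qq)), cls μ = a (cls x) → F μ = 0 → ∀ g : G,
      (3 : ℤ) ∣ Psi (dd T) ρ 1 (ρ g) 1 (ρ x) := by
    intro x μ hμ hFμ g
    obtain ⟨χ, hχ, hN⟩ := P1.1 g
    obtain ⟨lam, hlam, κ, hκ, hE⟩ := pow_eq hd ha hs χ (Subgroup.subset_closure ⟨g, hχ⟩)
    obtain ⟨a0, hN0⟩ := P0.2 lam hlam
    obtain ⟨g1, hN1⟩ := P1.2 κ hκ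
    have e1 := hN x
    have e2 := hN0 μ
    have e3 := hN1 x
    have e4 := congrArg (fun u : Cˣ => ‖(u : C)‖ ^ 2) (hE (cls x))
    simp only [Units.val_mul, Units.val_pow_eq_pow_val, norm_mul, norm_pow] at e4
    rw [← hμ, mul_pow, ← pow_mul, ← pow_mul, mul_comm (Nat.card ψ.ker), mul_comm 3, pow_mul,
      pow_mul, e1, e2, e3, ← zpow_natCast, ← zpow_natCast, ← zpow_mul, ← zpow_mul,
      ← zpow_add₀ hT0.ne'] at e4
    have e5 := zpow_right_injective₀ hT0 hT.ne' e4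
    have e6 := hF0 μ (new_of hT hd ha P1.2 x μ hμ) hFμ a0
    rw [A0.symm] at e6
    rw [A1.symm]
    have e7 : (3 : ℤ) ∣ Psi (dd T) ρ 1 (ρ x) 1 (ρ g) * (Nat.card ψ.ker : ℕ) := by
      rw [e5]
      exact dvd_add e6 (dvd_mul_left _ _)
    rcases Int.prime_three.dvd_or_dvd e7 with h | h
    · exact h
    · exact absurd (by exact_mod_cast h) h3
  obtain ⟨γ, hγ⟩ := hG
  choose μ hμ using fun j => cls_surj (a (cls (γ j)))
  have hdep : ¬ LinearIndependent (ZMod 3) fun j : Fin 59 => F (μ j) := by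
    intro h
    have := h.fintype_card_le_finrank
    simp at this
  rw [Fintype.not_linearIndependent_iff] at hdep
  obtain ⟨c, hc, j0, hj0⟩ := hdep
  obtain ⟨x, hx⟩ := exists_comb 59 (fun j => ((γ j, μ j) : G × Gam0 (pp * qq)))
    (fun j => (c j).val)
  have x1 : cls x.2 = a (cls x.1) := by
    have := hx (Additive (Gbar (Gam0 (pp * qq))))
      (fun p => Additive.ofMul (cls p.2) - Additive.ofMul (a (cls p.1))) (fun p q => by
        simp only [Prod.fst_mul, Prod.snd_mul, map_mul, ofMul_mul]; abel)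
    simp only [hμ, sub_self, smul_zero, Finset.sum_const_zero] at this
    exact Additive.ofMul.injective (sub_eq_zero.1 this)
  have x2 : F x.2 = 0 := by
    rw [hx _ (fun p => F p.2) (fun p q => hF _ _), ← hc]
    refine Finset.sum_congr rfl fun j _ => ?_
    rw [← Nat.cast_smul_eq_nsmul (ZMod 3), ZMod.natCast_zmod_val]
  have x3 := hγ (fun j => ((c j).val : ℤ)) (fun g => by
    have := key x.1 x.2 x1 x2 g
    rw [hx ℤ (fun p => Psi (dd T) ρ 1 (ρ g) 1 (ρ p.1)) (fun p q => A1.hom _ _ _ _)] at this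
    simpa only [nsmul_eq_mul] using this) j0
  apply hj0
  have x4 : 3 ∣ (c j0).val := by exact_mod_cast x3
  rw [← ZMod.natCast_zmod_val (c j0), ZMod.natCast_eq_zero_iff]
  exact x4

end Pool.Agent.MP_a88b1d_nt.H45
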